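import Pool.Agent.Run7.h648.GK.TG1

/-!
# Project GK, piece TGA: the traces `T_γ`
-/

set_option autoImplicit false

namespace Run7.h648.GK

open Polynomial Finset TensorProduct Run7.h400.GK

section int

variable (Fq E F : Type) [Field Fq] [Field E] [Algebra Fq E] [Field F] [Algebra Fq[X] F]
  [Algebra Fq F] [IsScalarTower Fq Fq[X] F]

/-- the span of the `e ⊗ x`, `x` integral -/
noncomputable def JJ : Submodule Fq (E ⊗[Fq] F) :=
  Submodule.span Fq {y | ∃ (e : E) (x : F), IsIntegral Fq[X] x ∧ y = e ⊗ₜ[Fq] x}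

theorem JJ_tmul (e : E) (x : F) (hx : IsIntegral Fq[X] x) : e ⊗ₜ[Fq] x ∈ JJ Fq E F :=
  Submodule.subset_span ⟨e, x, hx, rfl⟩

theorem JJ_mul (x y : E ⊗[Fq] F) (hx : x ∈ JJ Fq E F) (hy : y ∈ JJ Fq E F) :
    x * y ∈ JJ Fq E F := by
  have h := Submodule.mul_mem_mul hx hy
  rw [JJ, Submodule.span_mul_span] at h
  refine Submodule.span_mono ?_ h
  rintro _ ⟨_, ⟨e, x, hx, rfl⟩, _, ⟨e', x', hx', rfl⟩, rfl⟩
  exact ⟨e * e', x * x', hx.mul hx', by simp only [Algebra.TensorProduct.tmul_mul_tmul]⟩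

/-- the same as a subalgebra -/
noncomputable def JS : Subalgebra Fq (E ⊗[Fq] F) :=
  (JJ Fq E F).toSubalgebra (JJ_tmul Fq E F 1 1 isIntegral_one) (JJ_mul Fq E F)

variable {Fq E F}

theorem JS_tmul (e : E) (x : F) (hx : IsIntegral Fq[X] x) : e ⊗ₜ[Fq] x ∈ JS Fq E F :=
  JJ_tmul Fq E F e x hx

theorem JS_aeval (f : E[X]) : aeval (TM Fq E F) f ∈ JS Fq E F := by
  rw [aeval_def, eval₂_eq_sum_range]
  apply sum_mem
  intro i _
  apply mul_mem
  · rw [Algebra.TensorProduct.algebraMap_apply]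
    exact JS_tmul _ _ isIntegral_one
  · apply pow_mem
    exact JS_tmul _ _ isIntegral_algebraMap

theorem TrF_int (γ : E) (y : E ⊗[Fq] F) (hy : y ∈ JS Fq E F) :
    IsIntegral Fq[X] (TrF Fq E F ((γ ⊗ₜ[Fq] (1 : F)) * y)) := by
  have hc : ∀ c : Fq, IsIntegral Fq[X] (algebraMap Fq F c) := by
    intro c
    rw [IsScalarTower.algebraMap_apply Fq Fq[X] F]
    exact isIntegral_algebraMap
  change y ∈ JJ Fq E F at hy
  rw [JJ] at hy
  induction hy using Submodule.span_induction with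
  | mem y hy =>
    obtain ⟨e, x, hx, rfl⟩ := hy
    rw [Algebra.TensorProduct.tmul_mul_tmul, TrF_tmul, one_mul]
    exact (hc _).mul hx
  | zero => rw [mul_zero, map_zero]; exact isIntegral_zero
  | add a b _ _ ha hb => rw [mul_add, map_add]; exact ha.add hb
  | smul c a _ ha => rw [mul_smul_comm, map_smul, Algebra.smul_def]; exact (hc c).mul ha

end int

section gal

variable {Fq E F : Type} [Field Fq] [Field E] [Fintype E] [Algebra Fq E] [Field F]
  [Algebra Fq[X] F] [Algebra Fq F]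

theorem yM_add (q d k : ℕ) (w : Fq[X]) (θ : E) (lm : F) (f g : E[X]) :
    yM q d k w θ lm (f + g) = yM q d k w θ lm f + yM q d k w θ lm g := by
  unfold yM
  rw [map_add]; ring

theorem yM_C_mul (q d k : ℕ) (w : Fq[X]) (θ : E) (lm : F) (e : E) (f : E[X]) :
    yM q d k w θ lm (C e * f) = (e ⊗ₜ[Fq] (1 : F)) * yM q d k w θ lm f := by
  unfold yM
  rw [map_mul, aeval_C, Algebra.TensorProduct.algebraMap_apply]
  simp only [Algebra.algebraMap_self, RingHom.id_apply]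
  ring

theorem map_yM (q d k : ℕ) (w : Fq[X]) (θ : E) (lm : F) (f : E[X]) (s : F →ₐ[Fq] F)
    (hs : ∀ c : Fq[X], s (algebraMap Fq[X] F c) = algebraMap Fq[X] F c) (c : E)
    (h : ∀ i, Algebra.TensorProduct.map (AlgHom.id Fq E) s (gM (Fq := Fq) q θ d lm i) =
      ((c ^ (q ^ i)) ⊗ₜ[Fq] (1 : F)) * gM (Fq := Fq) q θ d lm i)
    (hk : ∑ i ∈ range d, dg q k i * q ^ i = k) :
    Algebra.TensorProduct.map (AlgHom.id Fq E) s (yM q d k w θ lm f) =
      ((c ^ k) ⊗ₜ[Fq] (1 : F)) * yM q d k w θ lm f := by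
  have h1 : Algebra.TensorProduct.map (AlgHom.id Fq E) s (aeval (TM Fq E F) f) =
      aeval (TM Fq E F) f := by
    have h2 := hom_eval₂ f (algebraMap E (E ⊗[Fq] F))
      (Algebra.TensorProduct.map (AlgHom.id Fq E) s).toRingHom (TM Fq E F)
    rw [aeval_def]
    refine h2.trans ?_
    congr 1
    · apply RingHom.ext
      intro e
      change Algebra.TensorProduct.map (AlgHom.id Fq E) s (algebraMap E (E ⊗[Fq] F) e) = _
      rw [Algebra.TensorProduct.algebraMap_apply]; simp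
    · change Algebra.TensorProduct.map (AlgHom.id Fq E) s (TM Fq E F) = _
      rw [TM, Algebra.TensorProduct.map_tmul, hs]; simp
  have h3 : Algebra.TensorProduct.map (AlgHom.id Fq E) s
      ((1 : E) ⊗ₜ[Fq] (algebraMap Fq[X] F w)⁻¹) = (1 : E) ⊗ₜ[Fq] (algebraMap Fq[X] F w)⁻¹ := by
    rw [Algebra.TensorProduct.map_tmul, map_inv₀, hs]; simp
  have h4 : ∏ i ∈ range d, ((((c ^ (q ^ i)) ⊗ₜ[Fq] (1 : F)) : E ⊗[Fq] F)) ^ dg q k i =
      (c ^ k) ⊗ₜ[Fq] (1 : F) := by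
    have h5 : ∀ i ∈ range d, ((((c ^ (q ^ i)) ⊗ₜ[Fq] (1 : F)) : E ⊗[Fq] F)) ^ dg q k i =
        (c ^ (dg q k i * q ^ i)) ⊗ₜ[Fq] (1 : F) := by
      intro i _
      rw [Algebra.TensorProduct.tmul_pow, one_pow, ← pow_mul, mul_comm]
    rw [Finset.prod_congr rfl h5]
    have h6 : ∀ m : ℕ, ∏ i ∈ range m, ((c ^ (dg q k i * q ^ i)) ⊗ₜ[Fq] (1 : F) : E ⊗[Fq] F) =
        (c ^ (∑ i ∈ range m, dg q k i * q ^ i)) ⊗ₜ[Fq] (1 : F) := by
      intro m
      induction m with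
      | zero => simp [Algebra.TensorProduct.one_def]
      | succ m ih =>
        rw [Finset.prod_range_succ, Finset.sum_range_succ, ih,
          Algebra.TensorProduct.tmul_mul_tmul, one_mul, pow_add]
    rw [h6, hk]
  rw [yM, map_mul, map_mul, map_prod, h1, h3]
  simp only [map_pow, h, mul_pow]
  rw [Finset.prod_mul_distrib, h4]
  ring

end gal

/-- the traces `T_γ` -/
theorem t_TGA : S_GS1 → S_GS2 → S_GS3 → S_OFA → S_EMB → S_FRB → S_DIG → S_TOR → S_GAL → S_GRL →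
    S_HTH → S_SBR → S_TGA := by
  intro hGS1 hGS2 hGS3 hOFA hEMB hFRB hDIG hTOR hGAL hGRL hHTH hSBR
  intro Fq E F _ _ _ _ _ _ _ _ _ _ _ w θ p f₀ q d k lm Cr u hD hC hp hqp hk0 hk1 hkq hCr hu0 hu
  classical
  have hq2 : 2 ≤ q := by
    rw [hD.hq]; exact Fintype.one_lt_card
  have hQ : 2 < q ^ d := by omega
  have hf0 : f₀ ≠ 0 := by
    rintro rfl
    rw [pow_zero] at hqp; omega
  have hpq : p ∣ q := by rw [hqp]; exact dvd_pow_self p hf0
  haveI : Fact p.Prime := ⟨hp⟩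
  haveI hcp : CharP Fq p := by
    obtain ⟨p', hp', n, hpc, hc⟩ := FiniteField.card' Fq
    have h1 : p ^ f₀ = p' ^ (n : ℕ) := by rw [← hc, ← hD.hq, hqp]
    have h2 : p ∣ p' := by
      have : p ∣ p' ^ (n : ℕ) := by rw [← h1]; exact dvd_pow_self p hf0
      exact hp.dvd_of_dvd_pow this
    have h3 : p = p' := (Nat.prime_dvd_prime_iff_eq hp hpc).mp h2
    rw [h3]; exact hp'
  haveI : CharP E p := charP_of_injective_algebraMap (FaithfulSMul.algebraMap_injective Fq E) p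
  obtain ⟨hdig, -, -, -, -, -⟩ := hDIG q d k hq2 hD.hd1 hk0 hk1 hkq
  obtain ⟨hg1, hg2, hg3, hg4, hg5⟩ := hGS1 Fq E F w θ q d lm hD hC
  obtain ⟨hlm, -, ⟨ε, hε0, hε, hε', hwε⟩, htz, -, -⟩ := hOFA Fq E F w θ p q d lm hD hC hp hpq hQ
  refine ⟨AddMonoidHom.mk' (fun f => AddMonoidHom.mk'
    (fun γ => TrF Fq E F ((γ ⊗ₜ[Fq] (1 : F)) * yM q d k w θ lm f)) ?_) ?_, ?_, ?_, ?_, ?_, ?_, ?_⟩
  · intro a b
    rw [TensorProduct.add_tmul, add_mul, map_add]
  · intro f g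
    apply AddMonoidHom.ext
    intro γ
    simp only [AddMonoidHom.mk'_apply, AddMonoidHom.add_apply]
    rw [yM_add, mul_add, map_add]
  · intro e f γ
    simp only [AddMonoidHom.mk'_apply]
    rw [yM_C_mul, ← mul_assoc, Algebra.TensorProduct.tmul_mul_tmul, one_mul, mul_comm γ e]
  · intro c f γ
    simp only [AddMonoidHom.mk'_apply]
    rw [← Algebra.smul_def, ← Algebra.smul_def, ← TensorProduct.smul_tmul', smul_mul_assoc,
      map_smul]
  · -- integrality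
    intro f γ
    simp only [AddMonoidHom.mk'_apply]
    -- each Gauss sum is `λ` times an integral element
    have hgi : ∀ i, ∃ h ∈ JS Fq E F, gM (Fq := Fq) q θ d lm i = ((1 : E) ⊗ₜ[Fq] lm) * h := by
      intro i
      refine ⟨- ∑ z ∈ univ.filter (fun z : E => z ≠ 0),
        ((z⁻¹) ^ (q ^ i)) ⊗ₜ[Fq] (tz (Fq := Fq) q θ d lm z / lm), ?_, ?_⟩
      · apply neg_mem
        apply sum_mem
        intro z _
        exact JS_tmul _ _ (htz z)
      · rw [gM, mul_neg, Finset.mul_sum]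
        congr 1
        have h1 : ∀ z : E, (((1 : E) ⊗ₜ[Fq] lm) : E ⊗[Fq] F) *
            (((z⁻¹) ^ (q ^ i)) ⊗ₜ[Fq] (tz (Fq := Fq) q θ d lm z / lm)) =
            ((z⁻¹) ^ (q ^ i)) ⊗ₜ[Fq] (tz (Fq := Fq) q θ d lm z) := by
          intro z
          rw [Algebra.TensorProduct.tmul_mul_tmul, one_mul, mul_div_cancel₀ _ hC.ne]
        rw [Finset.sum_congr rfl fun z _ => h1 z]
    choose h hh1 hh2 using hgi
    have hprod : ∃ y' ∈ JS Fq E F, ∏ i ∈ range d, gM (Fq := Fq) q θ d lm i ^ dg q k i =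
        ((1 : E) ⊗ₜ[Fq] lm) * y' := by
      have h1 : ∏ i ∈ range d, gM (Fq := Fq) q θ d lm i ^ dg q k i =
          (((1 : E) ⊗ₜ[Fq] lm) : E ⊗[Fq] F) ^ (∑ i ∈ range d, dg q k i) *
            ∏ i ∈ range d, h i ^ dg q k i := by
        rw [← Finset.prod_pow_eq_pow_sum, ← Finset.prod_mul_distrib]
        apply Finset.prod_congr rfl
        intro i _
        rw [hh2, mul_pow]
      have h2 : ∑ i ∈ range d, dg q k i ≠ 0 := by
        intro h0
        rw [Finset.sum_eq_zero_iff] at h0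
        rw [Finset.sum_eq_zero (fun i hi => by rw [h0 i hi, zero_mul])] at hdig
        omega
      obtain ⟨m, hm⟩ := Nat.exists_eq_succ_of_ne_zero h2
      refine ⟨(((1 : E) ⊗ₜ[Fq] lm) : E ⊗[Fq] F) ^ m * ∏ i ∈ range d, h i ^ dg q k i, ?_, ?_⟩
      · apply mul_mem
        · exact pow_mem (JS_tmul _ _ hlm) _
        · exact prod_mem fun i _ => pow_mem (hh1 i) _
      · rw [h1, hm, pow_succ]; ring
    obtain ⟨y', hy', hprod⟩ := hprod
    have h1 : lm ^ (q ^ d - 2) * TrF Fq E F ((γ ⊗ₜ[Fq] (1 : F)) * yM q d k w θ lm f) =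
        TrF Fq E F ((γ ⊗ₜ[Fq] (1 : F)) *
          (y' * aeval (TM Fq E F) f * ((1 : E) ⊗ₜ[Fq] ε⁻¹))) := by
      rw [← TrF_mul, yM, hprod]
      congr 1
      have h2 : ((1 : E) ⊗ₜ[Fq] (lm ^ (q ^ d - 2)) : E ⊗[Fq] F) * ((1 : E) ⊗ₜ[Fq] lm) *
          ((1 : E) ⊗ₜ[Fq] (algebraMap Fq[X] F w)⁻¹) = (1 : E) ⊗ₜ[Fq] ε⁻¹ := by
        rw [Algebra.TensorProduct.tmul_mul_tmul, Algebra.TensorProduct.tmul_mul_tmul, one_mul,
          one_mul, hwε]
        congr 1
        have h3 : q ^ d - 1 = q ^ d - 2 + 1 := by omega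
        rw [h3, pow_succ]
        have := hC.ne
        field_simp
      rw [← h2]
      ring
    rw [h1]
    apply TrF_int
    apply mul_mem (mul_mem hy' (JS_aeval f))
    exact JS_tmul _ _ hε'
  · -- Galois
    intro f γ σ
    simp only [AddMonoidHom.mk'_apply]
    have hσ : ∀ c : Fq[X], σ (algebraMap Fq[X] F c) = algebraMap Fq[X] F c := by
      intro c
      rw [IsScalarTower.algebraMap_apply Fq[X] (RatFunc Fq) F]
      exact σ.commutes _
    let s : F →ₐ[Fq] F :=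
      { (σ : F →+* F) with
        commutes' := by
          intro c
          rw [IsScalarTower.algebraMap_apply Fq Fq[X] F]
          exact hσ _ }
    have hs : ∀ x, s x = σ x := fun x => rfl
    rw [← hs, ← TrF_map_right, map_mul]
    rw [map_yM q d k w θ lm f s hσ (u σ) (hg3 s (u σ) (hu0 σ) (fun z => hu σ z)) hdig]
    rw [Algebra.TensorProduct.map_tmul, map_one, ← mul_assoc, Algebra.TensorProduct.tmul_mul_tmul,
      one_mul]
    congr 3
    simp [mul_comm]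
  · -- not zero
    intro f hf
    simp only [AddMonoidHom.mk'_apply]
    exact TrF_nondeg _ (yM_ne hEMB hFRB hGRL Fq E F w θ q d k lm hD hC f hf)
  · -- fixed points
    intro f hf γ
    simp only [AddMonoidHom.mk'_apply]
    obtain ⟨CM, hCM1, hCM2⟩ := hGS2 Fq E F p (algebraMap Fq[X] F X) Cr hp hcp hCr
    have hsq : ∀ e, FiniteField.frobeniusAlgHom Fq E e = e ^ Fintype.card Fq := fun e => rfl
    set s := FiniteField.frobeniusAlgHom Fq E with hs
    have h3 := hGS3 Fq E F w θ p f₀ q d k lm Cr CM s f hD hC hp hqp hk0 hk1 hkq hCr hCM1 hCM2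
      (fun e => by rw [hD.hq]; exact hsq e) hf
    obtain ⟨γ', rfl⟩ := exists_root' p f₀ γ
    have h4 : ∀ a : E, ((a ^ (p ^ f₀)) ⊗ₜ[Fq] (1 : F) : E ⊗[Fq] F) =
        (a ⊗ₜ[Fq] (1 : F)) ^ (p ^ f₀) := by
      intro a
      rw [Algebra.TensorProduct.tmul_pow, one_pow]
    have h5 : ((γ' ^ (p ^ f₀)) ⊗ₜ[Fq] (1 : F) : E ⊗[Fq] F) =
        Algebra.TensorProduct.map s (AlgHom.id Fq F) (γ' ⊗ₜ[Fq] (1 : F)) := by
      rw [Algebra.TensorProduct.map_tmul, hsq, ← hD.hq, hqp]; rfl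
    rw [Cr_TrF_iter p (algebraMap Fq[X] F X) Cr hCr CM hCM1]
    conv_lhs => rw [h4, CM_mul_iter p CM hCM2]
    conv_rhs => rw [← h3, CM_map_iter p Cr CM hCM1, h5, ← map_mul, TrF_map_left s hsq]

end Run7.h648.GK
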