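import Pool.Agent.Run7.h400.GK.StmA
import Pool.Agent.Run7.h400.GK.StmK

/-!
# Project GK, piece TGA: preparations
-/

set_option autoImplicit false

namespace Run7.h648.GK

open Polynomial Finset TensorProduct Run7.h400.GK

section tr

variable {Fq E F : Type} [Field Fq] [Field E] [Algebra Fq E] [Field F] [Algebra Fq F]

/-- `Tr ⊗ id` -/
noncomputable def TrF (Fq E F : Type) [Field Fq] [Field E] [Algebra Fq E] [Field F]
    [Algebra Fq F] : E ⊗[Fq] F →ₗ[Fq] F :=
  (TensorProduct.lid Fq F).toLinearMap ∘ₗ LinearMap.rTensor F (Algebra.trace Fq E)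

theorem TrF_tmul (e : E) (x : F) :
    TrF Fq E F (e ⊗ₜ[Fq] x) = algebraMap Fq F (Algebra.trace Fq E e) * x := by
  simp [TrF, Algebra.smul_def]

theorem TrF_mul (x : F) (y : E ⊗[Fq] F) :
    TrF Fq E F (((1 : E) ⊗ₜ[Fq] x) * y) = x * TrF Fq E F y := by
  induction y using TensorProduct.induction_on with
  | zero => simp
  | tmul e z => rw [Algebra.TensorProduct.tmul_mul_tmul, one_mul, TrF_tmul, TrF_tmul]; ring
  | add a b ha hb => rw [mul_add, map_add, map_add, ha, hb, mul_add]

theorem TrF_nondeg [Finite Fq] [Finite E] (y : E ⊗[Fq] F) (hy : y ≠ 0) :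
    ∃ γ : E, TrF Fq E F ((γ ⊗ₜ[Fq] (1 : F)) * y) ≠ 0 := by
  classical
  by_contra hcon
  push Not at hcon
  apply hy
  have : Module.Finite Fq E := Module.Finite.of_finite
  set b := Module.finBasis Fq E with hb
  have hnd := traceForm_nondegenerate Fq E
  set b' := (Algebra.traceForm Fq E).dualBasis hnd b with hb'
  have key : ∀ y : E ⊗[Fq] F, y = ∑ i, (b' i) ⊗ₜ[Fq] TrF Fq E F (((b i) ⊗ₜ[Fq] (1 : F)) * y) := by
    intro y
    induction y using TensorProduct.induction_on with
    | zero => simp
    | tmul e x =>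
      have h1 : e = ∑ i, (Algebra.trace Fq E (b i * e)) • b' i := by
        conv_lhs => rw [← b'.sum_repr e]
        apply Finset.sum_congr rfl
        intro i _
        rw [hb', LinearMap.BilinForm.dualBasis_repr_apply, Algebra.traceForm_apply, mul_comm]
      simp only [Algebra.TensorProduct.tmul_mul_tmul, one_mul, TrF_tmul]
      conv_lhs => rw [h1]
      rw [TensorProduct.sum_tmul]
      apply Finset.sum_congr rfl
      intro i _
      rw [← Algebra.smul_def, TensorProduct.tmul_smul, TensorProduct.smul_tmul']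
    | add a c ha hc =>
      simp only [mul_add, map_add, TensorProduct.tmul_add, Finset.sum_add_distrib]
      rw [← ha, ← hc]
  rw [key y]
  apply Finset.sum_eq_zero
  intro i _
  rw [hcon, TensorProduct.tmul_zero]

/-- equivariance for automorphisms of `F` -/
theorem TrF_map_right (s : F →ₐ[Fq] F) (y : E ⊗[Fq] F) :
    TrF Fq E F (Algebra.TensorProduct.map (AlgHom.id Fq E) s y) = s (TrF Fq E F y) := by
  induction y using TensorProduct.induction_on with
  | zero => simp
  | tmul e z => simp [TrF_tmul]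
  | add a b ha hb => rw [map_add, map_add, map_add, ha, hb, map_add]

/-- the trace is invariant under Frobenius -/
theorem trace_pow [Finite Fq] [Finite E] (p : ℕ) [Fact p.Prime] [CharP E p] [CharP Fq p] (e : E) :
    Algebra.trace Fq E (e ^ p) = (Algebra.trace Fq E e) ^ p := by
  apply FaithfulSMul.algebraMap_injective Fq E
  rw [map_pow (algebraMap Fq E), FiniteField.algebraMap_trace_eq_sum_pow, FiniteField.algebraMap_trace_eq_sum_pow,
    sum_pow_char]
  apply Finset.sum_congr rfl
  intro i _
  rw [← pow_mul, ← pow_mul, mul_comm]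

theorem trace_powq [Fintype Fq] [Finite E] (e : E) :
    Algebra.trace Fq E (e ^ Fintype.card Fq) = Algebra.trace Fq E e := by
  obtain ⟨p, n, hp, hpc, hc⟩ := FiniteField.card' Fq
  haveI : Fact p.Prime := ⟨hpc⟩
  haveI : CharP E p := charP_of_injective_algebraMap (FaithfulSMul.algebraMap_injective Fq E) p
  have h : ∀ m : ℕ, Algebra.trace Fq E (e ^ (p ^ m)) = (Algebra.trace Fq E e) ^ (p ^ m) := by
    intro m
    induction m with
    | zero => simp
    | succ m ih => rw [pow_succ, pow_mul, trace_pow p, ih, pow_mul]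
  rw [hc, h, ← hc, FiniteField.pow_card]

theorem TrF_map_left [Fintype Fq] [Finite E] (s : E →ₐ[Fq] E)
    (hs : ∀ e, s e = e ^ Fintype.card Fq) (y : E ⊗[Fq] F) :
    TrF Fq E F (Algebra.TensorProduct.map s (AlgHom.id Fq F) y) = TrF Fq E F y := by
  induction y using TensorProduct.induction_on with
  | zero => simp
  | tmul e z => simp [TrF_tmul, hs, trace_powq]
  | add a b ha hb => rw [map_add, map_add, map_add, ha, hb]

/-- every element of a finite field is a `p`-th power -/
theorem exists_root (p : ℕ) [Fact p.Prime] [CharP E p] [Finite E] (e : E) : ∃ e', e = e' ^ p := by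
  have h : Function.Surjective (frobenius E p) :=
    Finite.injective_iff_surjective.mp (frobenius_inj E p)
  obtain ⟨e', he'⟩ := h e
  exact ⟨e', by rw [← he', frobenius_def]⟩

section cart

variable (p : ℕ) [Fact p.Prime] [CharP E p] [CharP Fq p] [Finite Fq] [Finite E]
  (T : F) (Cr : F →+ F) (hCr : IsCart p T Cr)
  (CM : E ⊗[Fq] F →+ E ⊗[Fq] F) (h1 : ∀ (e : E) (x : F), CM ((e ^ p) ⊗ₜ[Fq] x) = e ⊗ₜ[Fq] (Cr x))

include hCr h1

theorem Cr_TrF (y : E ⊗[Fq] F) : Cr (TrF Fq E F y) = TrF Fq E F (CM y) := by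
  induction y using TensorProduct.induction_on with
  | zero => simp
  | tmul e z =>
    obtain ⟨e', rfl⟩ := exists_root p e
    rw [h1, TrF_tmul, TrF_tmul, trace_pow p, map_pow, hCr.1]
  | add a b ha hb => rw [map_add, map_add, map_add, map_add, ha, hb]

theorem Cr_TrF_iter (n : ℕ) (y : E ⊗[Fq] F) :
    Cr^[n] (TrF Fq E F y) = TrF Fq E F (CM^[n] y) := by
  induction n generalizing y with
  | zero => rfl
  | succ n ih =>
    rw [Function.iterate_succ_apply, Function.iterate_succ_apply, Cr_TrF p T Cr hCr CM h1, ih]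

omit hCr in
theorem CM_map (s : E →ₐ[Fq] E) (y : E ⊗[Fq] F) :
    CM (Algebra.TensorProduct.map s (AlgHom.id Fq F) y) =
      Algebra.TensorProduct.map s (AlgHom.id Fq F) (CM y) := by
  induction y using TensorProduct.induction_on with
  | zero => simp
  | tmul e z =>
    obtain ⟨e', rfl⟩ := exists_root p e
    rw [h1, Algebra.TensorProduct.map_tmul, Algebra.TensorProduct.map_tmul, map_pow, h1]
    rfl
  | add a b ha hb => rw [map_add, map_add, map_add, map_add, ha, hb]

omit hCr in
theorem CM_map_iter (s : E →ₐ[Fq] E) (n : ℕ) (y : E ⊗[Fq] F) :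
    CM^[n] (Algebra.TensorProduct.map s (AlgHom.id Fq F) y) =
      Algebra.TensorProduct.map s (AlgHom.id Fq F) (CM^[n] y) := by
  induction n generalizing y with
  | zero => rfl
  | succ n ih =>
    rw [Function.iterate_succ_apply, Function.iterate_succ_apply, CM_map p Cr CM h1, ih]

omit hCr h1 in
theorem CM_mul_iter (h2 : ∀ x y, CM (x ^ p * y) = x * CM y) (n : ℕ) (x y : E ⊗[Fq] F) :
    CM^[n] (x ^ (p ^ n) * y) = x * CM^[n] y := by
  induction n generalizing x y with
  | zero => simp
  | succ n ih =>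
    rw [Function.iterate_succ_apply, Function.iterate_succ_apply, pow_succ, pow_mul, h2, ih]

end cart

/-- every element of a finite field is a `p^n`-th power -/
theorem exists_root' (p : ℕ) [Fact p.Prime] [CharP E p] [Finite E] (n : ℕ) (e : E) :
    ∃ e', e = e' ^ (p ^ n) := by
  induction n with
  | zero => exact ⟨e, by simp⟩
  | succ n ih =>
    obtain ⟨e', he'⟩ := ih
    obtain ⟨e'', he''⟩ := exists_root p e'
    exact ⟨e'', by rw [pow_succ', pow_mul, ← he'', ← he']⟩

end tr

end Run7.h648.GK
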