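import Pool.Agent.Run7.h648.GK.TG0

/-!
# Project GK, piece TGA: the embedding of `E ⊗ F` in `E((π))`
-/

set_option autoImplicit false

namespace Run7.h648.GK

open Polynomial Finset TensorProduct Run7.h400.GK

theorem algebraMap_LS {E : Type} [Field E] (e : E) :
    algebraMap E (LaurentSeries E) e = HahnSeries.single (0 : ℤ) e := by
  rw [HahnSeries.algebraMap_apply']
  simp [HahnSeries.C]

theorem tower_LS {Fq E : Type} [Field Fq] [Field E] [Algebra Fq E] :
    @IsScalarTower Fq E (LaurentSeries E) Algebra.toSMul Algebra.toSMul Algebra.toSMul := by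
  apply IsScalarTower.of_algebraMap_eq
  intro x
  rw [HahnSeries.algebraMap_apply', HahnSeries.algebraMap_apply', PowerSeries.algebraMap_apply,
    PowerSeries.algebraMap_apply]
  rfl

/-- `TT E q` is transcendental over `E` -/
theorem TT_transc {E : Type} [Field E] {q : ℕ} (hq : 2 ≤ q) (p : E[X])
    (hp : aeval (TT E q) p = 0) : p = 0 := by
  ext n
  rw [coeff_zero]
  by_contra hn
  have h1 : (aeval (TT E q) p).coeff ((n : ℤ) * (-((q : ℤ) - 1))) = 0 := by
    rw [hp]
    rfl
  rw [aeval_def, eval₂_eq_sum_range, HahnSeries.coeff_sum] at h1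
  have h2 : ∀ i : ℕ, (algebraMap E (LaurentSeries E) (p.coeff i) *
      (TT E q) ^ i).coeff ((n : ℤ) * (-((q : ℤ) - 1)))
      = if i = n then p.coeff n * (-1) ^ n else 0 := by
    intro i
    rw [algebraMap_LS, TT, HahnSeries.single_pow,
      HahnSeries.single_mul_single, zero_add, nsmul_eq_mul]
    by_cases hi : i = n
    · subst hi
      rw [if_pos rfl, HahnSeries.coeff_single_same]
    · rw [if_neg hi, HahnSeries.coeff_single_of_ne]
      intro h3
      apply hi
      have h4 : (q : ℤ) - 1 ≠ 0 := by omega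
      have h5 := mul_right_cancel₀ (neg_ne_zero.mpr h4) h3
      exact_mod_cast h5.symm
  rw [Finset.sum_congr rfl fun i _ => h2 i, Finset.sum_ite_eq'] at h1
  have h3 : n ∈ range (p.natDegree + 1) := by
    rw [Finset.mem_range]
    have := le_natDegree_of_ne_zero hn
    omega
  rw [if_pos h3] at h1
  rcases mul_eq_zero.mp h1 with h4 | h4
  · exact hn h4
  · exact absurd h4 (pow_ne_zero _ (by norm_num))

open Classical in
/-- orthogonality of the powers -/
theorem sumz {E : Type} [Field E] [Fintype E] (q d i j : ℕ) (hq : 2 ≤ q)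
    (hc : Fintype.card E = q ^ d) (hi : i < d) (hj : j < d) :
    ∑ z ∈ univ.filter (fun z : E => z ≠ 0), (z⁻¹) ^ (q ^ i) * z ^ (q ^ j) =
      if i = j then -1 else 0 := by
  have h1 : ∑ z ∈ univ.filter (fun z : E => z ≠ 0), (z⁻¹) ^ (q ^ i) * z ^ (q ^ j) =
      ∑ u : Eˣ, ((u : E)⁻¹) ^ (q ^ i) * (u : E) ^ (q ^ j) := by
    rw [Finset.sum_subtype (univ.filter (fun z : E => z ≠ 0)) (p := fun z : E => z ≠ 0)
      (by intro x; simp)]
    exact (Fintype.sum_equiv unitsEquivNeZero _ _ (fun u => rfl)).symm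
  have hqi : q ^ i ≤ q ^ (d - 1) := Nat.pow_le_pow_right (by omega) (by omega)
  have hqj : q ^ j ≤ q ^ (d - 1) := Nat.pow_le_pow_right (by omega) (by omega)
  have hqd : q ^ d = q * q ^ (d - 1) := by
    rw [← pow_succ']; congr 1; omega
  have hpos : 1 ≤ q ^ (d - 1) := Nat.one_le_pow _ _ (by omega)
  have hqi1 : 1 ≤ q ^ i := Nat.one_le_pow _ _ (by omega)
  have hqj1 : 1 ≤ q ^ j := Nat.one_le_pow _ _ (by omega)
  have hbig : 2 * q ^ (d - 1) ≤ q ^ d := by rw [hqd]; exact Nat.mul_le_mul_right _ hq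
  have h2 : ∀ u : Eˣ, ((u : E)⁻¹) ^ (q ^ i) * (u : E) ^ (q ^ j) =
      (u : E) ^ (q ^ d - 1 - q ^ i + q ^ j) := by
    intro u
    have h3 : (u : E) ^ (q ^ d - 1) = 1 := by
      rw [← hc]; exact FiniteField.pow_card_sub_one_eq_one _ u.ne_zero
    rw [pow_add]
    congr 1
    rw [inv_pow]
    apply inv_eq_of_mul_eq_one_right
    rw [← pow_add, ← h3]
    congr 1
    omega
  rw [h1, Finset.sum_congr rfl fun u _ => h2 u]
  have h4 := FiniteField.sum_pow_units E (q ^ d - 1 - q ^ i + q ^ j)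
  rw [h4, hc]
  by_cases hij : i = j
  · subst hij
    rw [if_pos rfl, if_pos]
    have : q ^ d - 1 - q ^ i + q ^ i = q ^ d - 1 := by omega
    rw [this]
  · rw [if_neg hij, if_neg]
    rintro ⟨m, hm⟩
    have hne : q ^ i ≠ q ^ j := fun h => hij (Nat.pow_right_injective hq h)
    rcases Nat.lt_or_ge m 1 with hm1 | hm1
    · have : m = 0 := by omega
      subst this
      omega
    · rcases Nat.lt_or_ge m 2 with hm2 | hm2
      · have : m = 1 := by omega
        subst this
        omega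
      · have : (q ^ d - 1) * 2 ≤ (q ^ d - 1) * m := Nat.mul_le_mul_left _ hm2
        omega

section emb

variable {Fq E F : Type} [Field Fq] [Field E] [Algebra Fq E] [Field F] [Algebra Fq[X] F]
  [Algebra Fq F] [IsScalarTower Fq Fq[X] F]

/-- the embedding as a homomorphism over `Fq` -/
noncomputable def iA (q : ℕ) (ι : F →+* LaurentSeries E)
    (hι : ∀ c : Fq[X], ι (algebraMap Fq[X] F c) = aeval (TT E q) c) : F →ₐ[Fq] LaurentSeries E :=
  { ι with
    commutes' := by
      intro c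
      have h := hι (C c)
      rw [aeval_C] at h
      rw [← h, IsScalarTower.algebraMap_apply Fq Fq[X] F]
      rfl }

theorem exists_j (q : ℕ) (ι : F →+* LaurentSeries E)
    (hι : ∀ c : Fq[X], ι (algebraMap Fq[X] F c) = aeval (TT E q) c) :
    ∃ j : E ⊗[Fq] F →+* LaurentSeries E, ∀ e x, j (e ⊗ₜ[Fq] x) = algebraMap E _ e * ι x := by
  haveI : @IsScalarTower Fq E (LaurentSeries E) Algebra.toSMul Algebra.toSMul Algebra.toSMul :=
    tower_LS
  refine ⟨(Algebra.TensorProduct.productMap (IsScalarTower.toAlgHom Fq E (LaurentSeries E))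
    (iA q ι hι)).toRingHom, fun e x => ?_⟩
  change Algebra.TensorProduct.productMap _ _ (e ⊗ₜ[Fq] x) = _
  rw [Algebra.TensorProduct.productMap_apply_tmul]
  rfl

end emb

theorem yM_ne (hEMB : S_EMB) (hFRB : S_FRB) (hGRL : S_GRL)
    (Fq E F : Type) [Field Fq] [Fintype Fq] [Field E] [Fintype E]
    [Algebra Fq E] [Field F] [Algebra Fq[X] F] [Algebra (RatFunc Fq) F]
    [IsScalarTower Fq[X] (RatFunc Fq) F] [Algebra Fq F] [IsScalarTower Fq Fq[X] F]
    (w : Fq[X]) (θ : E) (q d k : ℕ) (lm : F) (hD : Dat Fq E w θ q d) (hC : CFD Fq F w q lm)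
    (f : E[X]) (hf : f ≠ 0) : yM q d k w θ lm f ≠ 0 := by
  classical
  have hq2 : 2 ≤ q := by
    rw [hD.hq]; exact Fintype.one_lt_card
  obtain ⟨ι, hι, a₀, ha₀, hlam⟩ := hEMB Fq E F w θ q d lm hD hC
  obtain ⟨j, hj⟩ := exists_j (Fq := Fq) (E := E) (F := F) q ι hι
  obtain ⟨-, -, -, hδ, -, -⟩ := hFRB Fq E w θ q d hD
  have hg : ∀ i, gk q w θ i ≠ 0 := fun i => (hGRL Fq E q _ _ hD.hq (hδ i)).1
  have hjg : ∀ i, i < d → j (gM (Fq := Fq) q θ d lm i) =
      algebraMap E (LaurentSeries E) (a₀ ^ (q ^ i)) * gk q w θ i := by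
    intro i hi
    rw [gM, map_neg, map_sum]
    have h1 : ∀ z ∈ univ.filter (fun z : E => z ≠ 0),
        j (((z⁻¹) ^ (q ^ i)) ⊗ₜ[Fq] (tz (Fq := Fq) q θ d lm z)) =
        ∑ l ∈ range d, algebraMap E (LaurentSeries E) ((z⁻¹) ^ (q ^ i) * z ^ (q ^ l)) *
          (algebraMap E (LaurentSeries E) (a₀ ^ (q ^ l)) * gk q w θ l) := by
      intro z _
      rw [hj, hlam, lam, Finset.mul_sum]
      apply Finset.sum_congr rfl
      intro l _
      rw [mul_pow, map_mul, map_mul]
      ring
    rw [Finset.sum_congr rfl h1, Finset.sum_comm]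
    simp only [← Finset.sum_mul, ← map_sum]
    rw [Finset.sum_eq_single i]
    · have h2 := sumz (E := E) q d i i hq2 hD.hd hi hi
      rw [if_pos rfl] at h2
      have h3 : ∑ z ∈ univ.filter (fun z : E => z ≠ 0), (z⁻¹) ^ (q ^ i) * z ^ (q ^ i) = -1 := by
        convert h2
      rw [h3, map_neg, map_one]; ring
    · intro l hl hli
      have h2 := sumz (E := E) q d i l hq2 hD.hd hi (Finset.mem_range.mp hl)
      rw [if_neg (Ne.symm hli)] at h2
      have h3 : ∑ z ∈ univ.filter (fun z : E => z ≠ 0), (z⁻¹) ^ (q ^ i) * z ^ (q ^ l) = 0 := by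
        convert h2
      rw [h3, map_zero, zero_mul]
    · intro hni
      exact absurd (Finset.mem_range.mpr hi) hni
  have hjf : j (aeval (TM Fq E F) f) = aeval (TT E q) f := by
    rw [aeval_def, hom_eval₂, aeval_def]
    congr 1
    · apply RingHom.ext
      intro e
      change (j (algebraMap E (E ⊗[Fq] F) e)) = _
      rw [Algebra.TensorProduct.algebraMap_apply, hj]; simp
    · rw [TM, hj, map_one, one_mul, hι, aeval_X]
  have hw : algebraMap Fq[X] F w ≠ 0 := by
    intro h
    have h1 : algebraMap Fq[X] (RatFunc Fq) w = 0 := by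
      rw [IsScalarTower.algebraMap_apply Fq[X] (RatFunc Fq) F] at h
      exact (map_eq_zero _).mp h
    exact hD.irr.ne_zero ((map_eq_zero_iff _ (RatFunc.algebraMap_injective Fq)).mp h1)
  intro h
  have h1 := congrArg j h
  rw [yM, map_mul, map_mul, map_prod, map_zero, hjf, hj, map_one, one_mul] at h1
  rcases mul_eq_zero.mp h1 with h2 | h2
  · rcases mul_eq_zero.mp h2 with h3 | h3
    · rw [Finset.prod_eq_zero_iff] at h3
      obtain ⟨i, hi, h4⟩ := h3
      rw [map_pow] at h4
      have h6 : j (gM (Fq := Fq) q θ d lm i) = 0 := by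
        by_contra h7
        exact pow_ne_zero _ h7 h4
      rw [hjg i (Finset.mem_range.mp hi)] at h6
      rcases mul_eq_zero.mp h6 with h7 | h7
      · rw [map_eq_zero] at h7
        exact pow_ne_zero _ ha₀ h7
      · exact hg i h7
    · exact hf (TT_transc hq2 f h3)
  · rw [map_eq_zero] at h2
    exact inv_ne_zero hw h2

end Run7.h648.GK
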